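import Pool.Agent.W622.ETG.Stm

set_option autoImplicit false

namespace Pool.Agent.W89.ELG

open Pool.Agent.W622.ETG Module

theorem t_CSP (hNF : S_NF) (hSPLIT : S_SPLIT) (hBLK : S_BLK) (hA3 : S_A3) : S_CSP := by
  intro V _ _ _ e A M p d hMC hM hp hd hor
  obtain ⟨hE, s, hs⟩ := hNF V e (res A (ann d)) (hMC.el (ann d) (ann_ne_top hd))
  have key : ∀ t : Set (DSub V), t ⊆ s → sSup t = M ⊓ ann d →
      ∃ X' : DSub V, Disjoint (M ⊓ ann d) X' ∧
        res A (ann d) = res A (M ⊓ ann d) ⊔ res A X' := by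
    intro t ht hsup
    obtain ⟨h1, h2, -⟩ := hSPLIT V e (res A (ann d)) s t hE hs ht
    rw [hsup] at h1 h2
    refine ⟨ann d ⊓ sSup (s \ t), h2.mono_right inf_le_right, ?_⟩
    rw [res_res, res_res, inf_eq_right.mpr (inf_le_right : M ⊓ ann d ≤ ann d)] at h1
    exact h1
  by_cases hMd : M ≤ ann d
  · have hX : M ∈ s := hBLK V e A M (ann d) s hMC.ef (Or.inl hM) hMd hs
    exact key {M} (Set.singleton_subset_iff.mpr hX) (by rw [sSup_singleton, inf_eq_left.mpr hMd])
  · rcases hA3 V e A M p d s hMC hM hp hd (hor.resolve_left hMd) hMd hs with hX | ⟨t₁, t₂, h1, h2, -, h3⟩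
    · exact key {M ⊓ ann d} (Set.singleton_subset_iff.mpr hX) sSup_singleton
    · refine key {Submodule.span (ZMod 2) {t₁}, Submodule.span (ZMod 2) {t₂}} ?_ ?_
      · intro x hx
        simp only [Set.mem_insert_iff, Set.mem_singleton_iff] at hx
        rcases hx with rfl | rfl
        · exact h1
        · exact h2
      · rw [sSup_pair, h3, ← Submodule.span_union]
        rfl

end Pool.Agent.W89.ELG
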